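import Pool.Agent.R111.LQ.Xor

/-!
# The log-rank conjecture for functions of few quadratic polynomials

Let `F(x, y) = g(P_1(x, y), …, P_k(x, y))` with quadratic polynomials `P_j` over `F_2` in any number of
variables and an arbitrary function `g : F_2^k → {0,1}`. Then `F` has a deterministic protocol with
at most `k (log₂ r + 12 k + 5) + 1` bits, where `r` is the real rank of the communication matrix. So
the log-rank conjecture holds for functions of `k` quadratic polynomials when `k` is at most
polylogarithmic in the rank, and with the exponent one for bounded `k`; the number of variables does not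
enter. The same is true for polynomials of higher degree whose mixed terms (those which contain both an
`x`- and a `y`-variable) are bilinear, in particular (for quadratic polynomials) for the functions
`F(x, y) = f(x + y)`, `f = g(Q_1, …, Q_k)`.

Proof. For `c ∈ F_2^k` let `P_c = ∑ c_j P_j`, with bilinear part `B_c`. The sign matrix of `P_c` has
operator norm at most `2^((n + n' - rank B_c) / 2)`. Let `C` be the subspace of `F_2^k` spanned by the
`c` for which the rank of `B_c` is less than `2 s ≈ log₂ r + 12 k`, and split the Fourier expansion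
`F = ∑ ĝ(c) (-1)^(P_c) = F_0 + F_1`, `F_0` being the sum over `c ∈ C`. If `F_1` is not zero then it has
large norm: its values are multiples of `2^(-k)`, and every value of `(P_1, …, P_k)` that is attained
is attained with probability at least `2^(-2k)`. Now `⟨F, F_1⟩ ≈ ‖F_1‖²` while
`⟨F, F_1⟩² ≤ r ‖F_1‖_op² ‖F‖²`; this is a contradiction. So `F = F_0` depends only on the `P_c` with
`c ∈ C`, of which at most `k` are independent, all of small rank.
-/

set_option autoImplicit false

namespace Pool.Agent.Results.MP_e5d384_lc.FewQuadratics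

open MvPolynomial Matrix

/-- The mixed part of `P(x, y)` is bilinear: as a function on `F_2^n × F_2^n'`, `P` is the sum of a
function of `x`, a function of `y` and a bilinear form. -/
def BilinearMixedPart {n n' : ℕ} (P : MvPolynomial (Fin n ⊕ Fin n') (ZMod 2)) : Prop :=
  ∃ (a : (Fin n → ZMod 2) → ZMod 2) (b : (Fin n' → ZMod 2) → ZMod 2)
    (B : Matrix (Fin n) (Fin n') (ZMod 2)),
    ∀ x y, eval (Sum.elim x y) P = a x + b y + x ⬝ᵥ (B *ᵥ y)

/-- `log₂` of the real rank of the communication matrix -/
noncomputable def logRank {X Y : Type} [Fintype X] [Fintype Y] (F : X → Y → Bool) : ℝ :=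
  Real.logb 2 ((Matrix.of (fun (x : X) (y : Y) => if F x y then (1 : ℝ) else 0)).rank : ℝ)

/-- `F` has a deterministic two-party protocol with at most `K` bits. (Protocols exactly as in the
frozen statement S15531: `t` is the transcript so far, `owner t` says who speaks, `c` bits are
exchanged, and the answer is a function of the transcript.) -/
def CostLe {X Y : Type} (F : X → Y → Bool) (K : ℝ) : Prop :=
  ∃ (c : ℕ) (owner : List Bool → Bool) (a : List Bool → X → Bool)
      (b : List Bool → Y → Bool) (out : List Bool → Bool),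
      (∀ x y, out (Nat.iterate
        (fun t : List Bool => t ++ [if owner t then a t x else b t y]) c []) = F x y) ∧
      (c : ℝ) ≤ K

/-- **The log-rank conjecture for functions of few quadratic polynomials.**
(1) If `F(x, y) = g(P_1(x, y), …, P_k(x, y))` with polynomials `P_j` over `F_2` of degree at most `e`
with bilinear mixed part and an arbitrary `g`, then `D(F) ≤ k (log₂ rank F + (2 e + 8) k + 5) + 1`.
(2) If `F(x, y) = g(P_1(x, y), …, P_k(x, y))` with polynomials `P_j` of degree at most two, then
`D(F) ≤ k (log₂ rank F + 12 k + 5) + 1`.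
(3) The same for `F(x, y) = f(x + y)`, `f(z) = g(Q_1(z), …, Q_k(z))`, `Q_j` of degree at most two. -/
theorem result :
    (∀ (n n' k e : ℕ) (F : (Fin n → ZMod 2) → (Fin n' → ZMod 2) → Bool)
      (P : Fin k → MvPolynomial (Fin n ⊕ Fin n') (ZMod 2)) (g : (Fin k → ZMod 2) → Bool),
      (∀ j, (P j).totalDegree ≤ e) → (∀ j, BilinearMixedPart (P j)) →
      (∀ x y, F x y = g (fun j => eval (Sum.elim x y) (P j))) →
      CostLe F (k * (logRank F + (2 * e + 8) * k + 5) + 1)) ∧
    (∀ (n n' k : ℕ) (F : (Fin n → ZMod 2) → (Fin n' → ZMod 2) → Bool)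
      (P : Fin k → MvPolynomial (Fin n ⊕ Fin n') (ZMod 2)) (g : (Fin k → ZMod 2) → Bool),
      (∀ j, (P j).totalDegree ≤ 2) →
      (∀ x y, F x y = g (fun j => eval (Sum.elim x y) (P j))) →
      CostLe F (k * (logRank F + 12 * k + 5) + 1)) ∧
    (∀ (n k : ℕ) (f : (Fin n → ZMod 2) → Bool)
      (Q : Fin k → MvPolynomial (Fin n) (ZMod 2)) (g : (Fin k → ZMod 2) → Bool),
      (∀ j, (Q j).totalDegree ≤ 2) → (∀ z, f z = g (fun j => eval z (Q j))) →
      CostLe (fun x y => f (x + y)) (k * (logRank (fun x y => f (x + y)) + 12 * k + 5) + 1)) := by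
  classical
  have h1 : ∀ (n n' k e : ℕ) (F : (Fin n → ZMod 2) → (Fin n' → ZMod 2) → Bool)
      (P : Fin k → MvPolynomial (Fin n ⊕ Fin n') (ZMod 2)) (g : (Fin k → ZMod 2) → Bool),
      (∀ j, (P j).totalDegree ≤ e) → (∀ j, BilinearMixedPart (P j)) →
      (∀ x y, F x y = g (fun j => eval (Sum.elim x y) (P j))) →
      CostLe F (k * (logRank F + (2 * e + 8) * k + 5) + 1) := by
    intro n n' k e F P g hdeg hmix hF
    have hFe : F = fun x y => g (fun j => eval (Sum.elim x y) (P j)) := by
      funext x y; exact hF x y
    subst hFe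
    obtain ⟨owner, a, b, out, h⟩ := Pool.Agent.R111.LQ.final_proto P e hdeg hmix g
    refine ⟨_, owner, a, b, out, h, ?_⟩
    unfold logRank
    have hl := Real.natLog_le_logb (Matrix.of fun (x : Fin n → ZMod 2) (y : Fin n' → ZMod 2) =>
      if g (fun j => eval (Sum.elim x y) (P j)) then (1 : ℝ) else 0).rank 2
    push_cast at hl ⊢
    have hk : (0 : ℝ) ≤ k := Nat.cast_nonneg k
    have := mul_le_mul_of_nonneg_left hl hk
    nlinarith
  have h2 : ∀ (n n' k : ℕ) (F : (Fin n → ZMod 2) → (Fin n' → ZMod 2) → Bool)
      (P : Fin k → MvPolynomial (Fin n ⊕ Fin n') (ZMod 2)) (g : (Fin k → ZMod 2) → Bool),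
      (∀ j, (P j).totalDegree ≤ 2) →
      (∀ x y, F x y = g (fun j => eval (Sum.elim x y) (P j))) →
      CostLe F (k * (logRank F + 12 * k + 5) + 1) := by
    intro n n' k F P g hdeg hF
    have h := h1 n n' k 2 F P g hdeg
      (fun j => Pool.Agent.R111.LQ.mixed_of_quadratic (P j) (hdeg j)) hF
    have e : (k : ℝ) * (logRank F + (2 * (2 : ℕ) + 8) * k + 5) + 1 =
        k * (logRank F + 12 * k + 5) + 1 := by push_cast; ring
    rw [e] at h
    exact h
  refine ⟨h1, h2, ?_⟩
  intro n k f Q g hdeg hf
  choose P hP hPe using fun j => Pool.Agent.R111.LQ.exists_sum_poly (Q j)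
  refine h2 n n k (fun x y => f (x + y)) P g (fun j => (hP j).trans (hdeg j)) fun x y => ?_
  rw [hf]
  congr 1
  funext j
  rw [hPe]

end Pool.Agent.Results.MP_e5d384_lc.FewQuadratics
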