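import Pool.Agent.R111.LS.Normal

/-!
# The log-rank conjecture and linear symmetry: abelian normal subgroups of unbounded rank

Let `F : X × Y → {0,1}` be invariant under a finite group `Γ`, and let `r` be its real rank.

(1) Let `A` be an abelian normal subgroup of `Γ` (no bound for the number of its generators) with at
most `t` orbits on `X`. The players need at most `log₂ t + log₂ [A : A₀] + 2` bits if all characters
of `A` with at most `r` conjugates under `Γ` are trivial on `A₀`.

(2), (3), (4) Let the symmetry group contain a general linear group `GL(V)` over a finite field. All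
transvections act trivially on the rows as soon as `r + 1 < q ^ (dim V - 1)`. Hence the log-rank
conjecture holds for `F(x, y) = f(x - y)`, `f` any invariant function on a `GL(V)`-module of size
`2 ^ poly(dim V log q)` (forms, tensors, algebra structures, spaces of matrices, …), in particular for
`f` any property of `k`-tensors which is invariant under the invertible linear maps in the `k`
directions, for arbitrary fields and dimensions and fixed `k`.

Proof: the `χ`-component of `F` with respect to an abelian group `A` of symmetries is nonzero for at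
most `r` characters `χ` (they give linearly independent functions in the column space), and the set
of these characters is invariant under the normalizer of `A`. For `A` take the given normal subgroup,
or the group of all transvections with a given direction, whose nontrivial characters are all
conjugate to each other.
-/

set_option autoImplicit false

namespace Pool.Agent.Results.MP_e5d384_lc.LinearSymmetry

open Module

/-- the real rank of the communication matrix -/
noncomputable def rk {X Y : Type} [Fintype X] [Fintype Y] (F : X → Y → Bool) : ℕ :=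
  (Matrix.of (fun (x : X) (y : Y) => if F x y then (1 : ℝ) else 0)).rank

/-- `F` has a deterministic two-party protocol with at most `K` bits. (Protocols exactly as in the
frozen statement S15531: `t` is the transcript so far, `owner t` says who speaks, `c` bits are
exchanged, and the answer is a function of the transcript.) -/
def CostLe {X Y : Type} (F : X → Y → Bool) (K : ℝ) : Prop :=
  ∃ (c : ℕ) (owner : List Bool → Bool) (a : List Bool → X → Bool)
      (b : List Bool → Y → Bool) (out : List Bool → Bool),
      (∀ x y, out (Nat.iterate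
        (fun t : List Bool => t ++ [if owner t then a t x else b t y]) c []) = F x y) ∧
      (c : ℝ) ≤ K

/-- the number of conjugates `a ↦ χ (g a g⁻¹)`, `g ∈ Γ`, of the character `χ` of the normal
subgroup `A` of `Γ` -/
noncomputable def conjugates {Γ : Type} [Group Γ] {A : Subgroup Γ} [A.Normal] (χ : A →* ℂ) : ℕ :=
  (Set.range fun g : Γ => χ.comp (MulAut.conjNormal g).toMonoidHom).ncard

/-- the linear map `e` applied to the tensor `T` in the direction `i`, that is to all the vectors
`l ↦ T (j_1, …, j_{i-1}, l, j_{i+1}, …)` -/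
def act {K : Type} [Field K] {k : ℕ} {n : Fin k → ℕ} (i : Fin k)
    (e : (Fin (n i) → K) →ₗ[K] (Fin (n i) → K)) (T : (∀ i, Fin (n i)) → K) :
    (∀ i, Fin (n i)) → K :=
  fun j => e (fun l => T (Function.update j i l)) (j i)

theorem costLe_of_classes {X Y Q : Type} [Fintype Q] (F : X → Y → Bool) (α : X → Q)
    (hα : ∀ x x', α x = α x' → ∀ y, F x y = F x' y) (K : ℝ)
    (hK : Real.logb 2 (Fintype.card Q) + 2 ≤ K) : CostLe F K := by
  obtain ⟨c, ⟨owner, a, b, out, h⟩, hc⟩ := Pool.Agent.R111.LS.cost_of_classes F α hα
  exact ⟨c, owner, a, b, out, h, hc.trans hK⟩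

theorem pass {X Y : Type} {F : X → Y → Bool} {x x' : X} {y : Y}
    (h : (if F x y then (1 : ℝ) else 0) = if F x' y then (1 : ℝ) else 0) : F x y = F x' y := by
  cases h1 : F x y <;> cases h2 : F x' y <;> simp_all

theorem logb_le_of_large {q n r : ℕ} (hn : 2 ≤ n) (hq : 2 ≤ q) (hr : q ^ (n - 1) ≤ r + 1) :
    (n : ℝ) * Real.logb 2 q ≤ 2 * Real.logb 2 ((r : ℝ) + 1) := by
  have h1 : Real.logb 2 ((q : ℝ) ^ (n - 1)) ≤ Real.logb 2 ((r : ℝ) + 1) :=
    Real.logb_le_logb_of_le (by norm_num) (by positivity) (by exact_mod_cast hr)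
  rw [Real.logb_pow] at h1
  have h2 : 0 ≤ Real.logb 2 (q : ℝ) := Real.logb_nonneg (by norm_num) (by
    exact_mod_cast (by omega : 1 ≤ q))
  have h3 : (n : ℝ) ≤ 2 * ((n - 1 : ℕ) : ℝ) := by
    rw [Nat.cast_sub (by omega)]
    push_cast
    have : (2 : ℝ) ≤ n := by exact_mod_cast hn
    linarith
  calc (n : ℝ) * Real.logb 2 q ≤ (2 * ((n - 1 : ℕ) : ℝ)) * Real.logb 2 q :=
        mul_le_mul_of_nonneg_right h3 h2
    _ ≤ _ := by linarith

/-- Let the finite group `Γ` act on `X` and `Y`, `F` invariant, `A` an abelian normal subgroup of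
`Γ`, `b 0, …, b (t - 1)` representatives of the orbits of `A` on `X`, and `A₀` a subgroup of `A` on
which all characters of `A` with at most `rank F` conjugates are trivial. Then `F` has a protocol with
at most `log₂ t + log₂ [A : A₀] + 2` bits. -/
def AbelianNormal : Prop :=
  ∀ (Γ X Y : Type) [Group Γ] [Finite Γ] [Fintype X] [Fintype Y] [MulAction Γ X] [MulAction Γ Y]
    (F : X → Y → Bool) (_ : ∀ (g : Γ) x y, F (g • x) (g • y) = F x y)
    (A : Subgroup Γ) [A.Normal] (_ : ∀ a ∈ A, ∀ b ∈ A, a * b = b * a)
    (t : ℕ) (b : Fin t → X) (_ : ∀ x, ∃ j, ∃ a ∈ A, x = a • b j)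
    (A₀ : Subgroup A) (_ : ∀ χ : A →* ℂ, conjugates χ ≤ rk F → ∀ a ∈ A₀, χ a = 1),
    CostLe F (Real.logb 2 t + Real.logb 2 A₀.index + 2)

/-- Let the group `G` act on `X` and `Y`, `F` invariant, `V` a vector space of dimension `n ≥ 2` over
the field `K` with `q` elements, `φ : GL(V) → G` a homomorphism and `b 0, …, b (t - 1)`
representatives of the orbits on `X` of the normal closure of the `φ(e)`, `e` a transvection. If
`log₂ |X| ≤ κ (n log₂ q)^s`, then `F` has a protocol with at most
`max (log₂ t) (κ (2 log₂ (rank F + 1))^s) + 2` bits. -/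
def GLSymmetry : Prop :=
  ∀ (G X Y K V : Type) [Group G] [Fintype X] [Fintype Y] [MulAction G X] [MulAction G Y]
    (F : X → Y → Bool) (_ : ∀ (g : G) x y, F (g • x) (g • y) = F x y)
    [Field K] [Fintype K] [AddCommGroup V] [Module K V] [Finite V] (_ : 2 ≤ finrank K V)
    (φ : (V ≃ₗ[K] V) →* G) (t : ℕ) (b : Fin t → X)
    (_ : ∀ x, ∃ j, ∃ g ∈ Subgroup.normalClosure (φ '' LinearEquiv.transvections K V),
      x = g • b j)
    (κ s : ℝ) (_ : 0 ≤ κ) (_ : 0 ≤ s)
    (_ : Real.logb 2 (Fintype.card X) ≤ κ * (finrank K V * Real.logb 2 (Fintype.card K)) ^ s),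
    CostLe F (max (Real.logb 2 t) (κ * (2 * Real.logb 2 (rk F + 1)) ^ s) + 2)

/-- Let `GL(V)` act by automorphisms on the finite abelian group `M`, `log₂ |M| ≤ κ (n log₂ q)^s`, let
`D` be the subgroup generated by all `e m - m`, `e` a transvection, and let `f : M → {0,1}` be
invariant. Then `F(x, y) = f(x - y)` has a protocol with at most
`max (log₂ [M : D]) (κ (2 log₂ (rank F + 1))^s) + 2` bits. -/
def InvariantsOfModules : Prop :=
  ∀ (K V M : Type) [Field K] [Fintype K] [AddCommGroup V] [Module K V] [Finite V]
    (_ : 2 ≤ finrank K V) [AddCommGroup M] [Fintype M] [DistribMulAction (V ≃ₗ[K] V) M]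
    (f : M → Bool) (_ : ∀ (e : V ≃ₗ[K] V) m, f (e • m) = f m)
    (D : AddSubgroup M)
    (_ : D = AddSubgroup.closure {d | ∃ e ∈ LinearEquiv.transvections K V, ∃ m : M, d = e • m - m})
    (κ s : ℝ) (_ : 0 ≤ κ) (_ : 0 ≤ s)
    (_ : Real.logb 2 (Fintype.card M) ≤ κ * (finrank K V * Real.logb 2 (Fintype.card K)) ^ s),
    CostLe (fun x y => f (x - y)) (max (Real.logb 2 D.index)
      (κ * (2 * Real.logb 2 (rk (fun x y => f (x - y)) + 1)) ^ s) + 2)

/-- Let `K` be a finite field and `f` a property of tensors of the shape `n_0 × … × n_k` over `K`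
which is invariant under all invertible linear maps in the `k + 1` directions. Then
`F(S, T) = f(S - T)` has a protocol with at most `(log₂ (rank F + 1))^(k+1) + 2` bits. -/
def InvariantsOfTensors : Prop :=
  ∀ (K : Type) [Field K] [Fintype K] (k : ℕ) (n : Fin (k + 1) → ℕ)
    (f : ((∀ i, Fin (n i)) → K) → Bool)
    (_ : ∀ i (e : (Fin (n i) → K) ≃ₗ[K] (Fin (n i) → K)) T, f (act i e.toLinearMap T) = f T),
    CostLe (fun S T => f (S - T)) (Real.logb 2 (rk (fun S T => f (S - T)) + 1) ^ (k + 1) + 2)

/-- **The log-rank conjecture and linear symmetry.** -/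
theorem result : AbelianNormal ∧ GLSymmetry ∧ InvariantsOfModules ∧ InvariantsOfTensors := by
  classical
  refine ⟨?_, ?_, ?_, ?_⟩
  · intro Γ X Y _ _ _ _ _ _ F hF A _ hc t b hb A₀ hA₀
    have hF' : ∀ (g : Γ) x y, (if F (g • x) (g • y) then (1 : ℝ) else 0) =
        if F x y then (1 : ℝ) else 0 := fun g x y => by rw [hF]
    have key : ∀ a ∈ A₀, ∀ x y, F ((a : Γ) • x) y = F x y := by
      intro a ha x y
      exact pass (F := F) (Pool.Agent.R111.LS.normal_abelian A hc
        (fun x y => if F x y then (1 : ℝ) else 0) hF' a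
        (fun χ hχ => hA₀ χ hχ a ha) x y)
    choose J a haA hx using hb
    have iQ : Fintype (A ⧸ A₀) := Fintype.ofFinite _
    refine costLe_of_classes (Q := Fin t × (A ⧸ A₀)) F (fun x => (J x, ((⟨a x, haA x⟩ : A) : A ⧸ A₀)))
      (fun x x' h y => ?_) _ ?_
    · obtain ⟨h1, h2⟩ := Prod.mk.inj h
      rw [QuotientGroup.eq] at h2
      have h3 := key _ h2 x y
      have h4 : (((⟨a x, haA x⟩ : A)⁻¹ * ⟨a x', haA x'⟩ : A) : Γ) • x = x' := by
        calc (((⟨a x, haA x⟩ : A)⁻¹ * ⟨a x', haA x'⟩ : A) : Γ) • x
            = ((a x)⁻¹ * a x') • x := rfl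
          _ = ((a x)⁻¹ * a x') • (a x • b (J x)) := congrArg _ (hx x)
          _ = a x' • b (J x') := by
            rw [smul_smul, mul_assoc, hc _ (haA x') _ (haA x), inv_mul_cancel_left, h1]
          _ = x' := (hx x').symm
      rw [h4] at h3
      exact h3.symm
    · rw [Fintype.card_prod, Fintype.card_fin, ← Nat.card_eq_fintype_card (α := A ⧸ A₀)]
      have hi : A₀.index = Nat.card (A ⧸ A₀) := rfl
      rw [hi]
      rcases Nat.eq_zero_or_pos t with h | h
      · subst h
        have : 0 ≤ Real.logb 2 (Nat.card (A ⧸ A₀) : ℝ) := by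
          refine Real.logb_nonneg (by norm_num) ?_
          exact_mod_cast Nat.card_pos
        simpa using this
      · rw [Nat.cast_mul, Real.logb_mul (by positivity) (by
          have : 0 < Nat.card (A ⧸ A₀) := Nat.card_pos
          positivity)]
  · intro G X Y K V _ _ _ _ _ F hF _ _ _ _ _ hn φ t b hb κ s hκ hs hX
    have hF' : ∀ (g : G) x y, (if F (g • x) (g • y) then (1 : ℝ) else 0) =
        if F x y then (1 : ℝ) else 0 := fun g x y => by rw [hF]
    by_cases hr : rk F + 1 < Fintype.card K ^ (finrank K V - 1)
    · choose J g hg hx using hb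
      refine costLe_of_classes (Q := Fin t) F J (fun x x' h y => ?_) _ ?_
      · have h1 : ∀ z, F z y = F (b (J z)) y := by
          intro z
          conv_lhs => rw [hx z]
          exact pass (F := F) (Pool.Agent.R111.LS.normalClosure_trivial φ
            (fun x y => if F x y then (1 : ℝ) else 0) hF' hr (g z) (hg z) (b (J z)) y)
        rw [h1 x, h1 x', h]
      · rw [Fintype.card_fin]
        have := le_max_left (Real.logb 2 t) (κ * (2 * Real.logb 2 (rk F + 1)) ^ s)
        linarith
    · refine costLe_of_classes (Q := X) F id (fun x x' h y => by rw [show x = x' from h]) _ ?_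
      have h1 := logb_le_of_large hn Fintype.one_lt_card (not_lt.1 hr)
      have h2 : κ * (finrank K V * Real.logb 2 (Fintype.card K)) ^ s ≤
          κ * (2 * Real.logb 2 (rk F + 1)) ^ s := by
        refine mul_le_mul_of_nonneg_left (Real.rpow_le_rpow ?_ h1 hs) hκ
        refine mul_nonneg (Nat.cast_nonneg _) (Real.logb_nonneg (by norm_num) ?_)
        exact_mod_cast Fintype.card_pos (α := K)
      have := le_max_right (Real.logb 2 t) (κ * (2 * Real.logb 2 (rk F + 1)) ^ s)
      linarith
  · intro K V M _ _ _ _ _ hn _ _ _ f hf D hD κ s hκ hs hM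
    set F : M → M → Bool := fun x y => f (x - y) with hFdef
    have hF : ∀ (g : V ≃ₗ[K] V) x y, F (g • x) (g • y) = F x y := by
      intro g x y
      simp only [hFdef, ← smul_sub, hf]
    have hF' : ∀ (g : V ≃ₗ[K] V) x y, (if F (g • x) (g • y) then (1 : ℝ) else 0) =
        if F x y then (1 : ℝ) else 0 := fun g x y => by rw [hF]
    by_cases hr : rk F + 1 < Fintype.card K ^ (finrank K V - 1)
    · have key : ∀ d ∈ D, ∀ z, f (d + z) = f z := by
        intro d hd
        rw [hD] at hd
        induction hd using AddSubgroup.closure_induction with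
        | mem d hd =>
          obtain ⟨e, he, m, rfl⟩ := hd
          intro z
          have h1 : F (e • m) (m - z) = F m (m - z) :=
            pass (F := F) (Pool.Agent.R111.LS.transvection_trivial
              (MonoidHom.id (V ≃ₗ[K] V)) (fun x y => if F x y then (1 : ℝ) else 0) hF' hr e he m
              (m - z))
          simp only [hFdef] at h1
          rw [show e • m - (m - z) = e • m - m + z by abel,
            show m - (m - z) = z by abel] at h1
          exact h1
        | zero => intro z; rw [zero_add]
        | add a b _ _ ha hb => intro z; rw [add_assoc, ha, hb]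
        | neg a _ ha => intro z; rw [← ha, add_neg_cancel_left]
      refine costLe_of_classes (Q := M ⧸ D) F (fun x => (x : M ⧸ D)) (fun x x' h y => ?_) _ ?_
      · rw [QuotientAddGroup.eq] at h
        have h3 := key _ h (x - y)
        simp only [hFdef]
        rw [← h3]
        congr 1
        abel
      · rw [← Nat.card_eq_fintype_card (α := M ⧸ D)]
        have hi : D.index = Nat.card (M ⧸ D) := rfl
        rw [hi]
        have := le_max_left (Real.logb 2 (Nat.card (M ⧸ D))) (κ * (2 * Real.logb 2 (rk F + 1)) ^ s)
        linarith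
    · refine costLe_of_classes (Q := M) F id (fun x x' h y => by rw [show x = x' from h]) _ ?_
      have h1 := logb_le_of_large hn Fintype.one_lt_card (not_lt.1 hr)
      have h2 : κ * (finrank K V * Real.logb 2 (Fintype.card K)) ^ s ≤
          κ * (2 * Real.logb 2 (rk F + 1)) ^ s := by
        refine mul_le_mul_of_nonneg_left (Real.rpow_le_rpow ?_ h1 hs) hκ
        refine mul_nonneg (Nat.cast_nonneg _) (Real.logb_nonneg (by norm_num) ?_)
        exact_mod_cast Fintype.card_pos (α := K)
      have := le_max_right (Real.logb 2 D.index) (κ * (2 * Real.logb 2 (rk F + 1)) ^ s)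
      linarith
  · intro K _ _ k n f hf
    set F : ((∀ i, Fin (n i)) → K) → ((∀ i, Fin (n i)) → K) → Bool := fun S T => f (S - T) with hFdef
    obtain ⟨i, -, hi⟩ := Finset.exists_max_image Finset.univ n ⟨0, Finset.mem_univ _⟩
    by_cases hr : rk F + 1 < Fintype.card K ^ n i
    · have hconst : ∀ S T, f S = f T := by
        intro S T
        have := Pool.Agent.R111.LS.tensor_const (K := K) (n := n)
          (fun T => if f T then (1 : ℝ) else 0) i
          (fun e T => by
            have h : f (Pool.Agent.R111.LS.act i e.toLinearMap T) = f T := hf i e T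
            simp only [h]) hr S T
        exact pass (X := (∀ i, Fin (n i)) → K) (Y := Unit) (F := fun T _ => f T) (y := ()) this
      refine costLe_of_classes (Q := Unit) F (fun _ => ()) (fun x x' h y => hconst _ _) _ ?_
      have : 0 ≤ Real.logb 2 ((rk F : ℝ) + 1) := Real.logb_nonneg (by norm_num) (by
        have : (0 : ℝ) ≤ rk F := Nat.cast_nonneg _
        linarith)
      have h2 : 0 ≤ Real.logb 2 ((rk F : ℝ) + 1) ^ (k + 1) := by positivity
      simpa using h2
    · refine costLe_of_classes (Q := (∀ i, Fin (n i)) → K) F id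
        (fun x x' h y => by rw [show x = x' from h]) _ ?_
      rw [not_lt] at hr
      have hq : (1 : ℝ) ≤ Real.logb 2 (Fintype.card K) := by
        have h2 : 2 ≤ Fintype.card K := Fintype.one_lt_card
        rw [Real.le_logb_iff_rpow_le (by norm_num) (by positivity)]
        simpa using (by exact_mod_cast h2 : (2 : ℝ) ≤ Fintype.card K)
      have h1 : (n i : ℝ) * Real.logb 2 (Fintype.card K) ≤ Real.logb 2 ((rk F : ℝ) + 1) := by
        rw [← Real.logb_pow]
        exact Real.logb_le_logb_of_le (by norm_num) (by positivity) (by exact_mod_cast hr)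
      have h3 : Real.logb 2 (Fintype.card ((∀ i, Fin (n i)) → K)) ≤
          ((n i : ℝ) * Real.logb 2 (Fintype.card K)) ^ (k + 1) := by
        rw [Fintype.card_fun, Nat.cast_pow, Real.logb_pow, mul_pow]
        have h4 : (Fintype.card (∀ i, Fin (n i)) : ℝ) ≤ (n i : ℝ) ^ (k + 1) := by
          have : Fintype.card (∀ i, Fin (n i)) ≤ n i ^ (k + 1) := by
            rw [Fintype.card_pi]
            calc ∏ j, Fintype.card (Fin (n j)) ≤ ∏ _j : Fin (k + 1), n i :=
                  Finset.prod_le_prod' fun j _ => by
                    rw [Fintype.card_fin]; exact hi j (Finset.mem_univ _)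
              _ = n i ^ (k + 1) := by simp
          exact_mod_cast this
        have h5 : Real.logb 2 (Fintype.card K) ≤ Real.logb 2 (Fintype.card K) ^ (k + 1) :=
          le_self_pow₀ hq (by omega)
        have h6 : (0 : ℝ) ≤ Real.logb 2 (Fintype.card K) := by linarith
        exact mul_le_mul h4 h5 h6 (by positivity)
      have h7 : ((n i : ℝ) * Real.logb 2 (Fintype.card K)) ^ (k + 1) ≤
          Real.logb 2 ((rk F : ℝ) + 1) ^ (k + 1) := by
        refine pow_le_pow_left₀ ?_ h1 _
        have h6 : (0 : ℝ) ≤ Real.logb 2 (Fintype.card K) := by linarith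
        positivity
      linarith

end Pool.Agent.Results.MP_e5d384_lc.LinearSymmetry
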