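import Pool.Agent.R934.LR.Mat

/-!
# A Ramsey form of the log-rank conjecture: monochromatic squares slightly larger than the rank

The log-rank conjecture is equivalent to the following Ramsey statement, for one `ε = 1 / t` or for
all `ε > 0`: every Boolean matrix of real rank at most `r` with at least `2 ^ (C (log₂ r) ^ k + C)`
rows and columns contains a monochromatic rectangle with at least `(1 + ε) r` rows and `(1 + ε) r`
columns. By the theorem of Nisan and Wigderson the conjecture is equivalent to the existence of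
monochromatic rectangles of relative size `2 ^ (-polylog r)` in all Boolean matrices of rank `r`; here
it is enough to find, in a matrix of quasipolynomial size, a monochromatic square whose side is a
little larger than the rank.

The main inequality is unconditional: if all monochromatic rectangles of a matrix are small then
nearly all pairs of samples of its rows and columns contain no monochromatic square of side `2 r`. So
a counterexample contains bipartite Ramsey graphs of superquasipolynomial size without homogeneous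
squares of side `2 r`.

Proof. Choose the `k` rows of a monochromatic square of colour `v` one after the other. On the set
`T` of the columns in which the previous rows have the value `v`, every row in the span of the
previous rows is constant; so the candidates for the next row in this span form a monochromatic
rectangle with `T`. At most `r` of the rows are not in the span of the previous ones.
-/

set_option autoImplicit false

namespace Pool.Agent.Results.MP_e5d384_lc.RamseyForm

open Finset Pool.Agent.R934.LR Pool.Agent.H630R2.LR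

/-- Q1, as in the frozen statement S15531. -/
def LogRank : Prop :=
    ∃ C k : ℕ, ∀ n : ℕ, ∀ F : (Fin n → ZMod 2) → (Fin n → ZMod 2) → Bool,
      ∃ c : ℕ, ∃ owner : List Bool → Bool,
        ∃ a : List Bool → (Fin n → ZMod 2) → Bool,
        ∃ b : List Bool → (Fin n → ZMod 2) → Bool,
        ∃ out : List Bool → Bool,
          (∀ x y : Fin n → ZMod 2,
            out (Nat.iterate
              (fun t : List Bool => t ++ [if owner t then a t x else b t y]) c []) = F x y) ∧
          (c : ℝ) ≤ (C : ℝ) * (Real.logb 2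
              ((Matrix.of (fun x y : Fin n → ZMod 2 => if F x y then (1 : ℝ) else 0)).rank : ℝ)) ^ k
            + (C : ℝ)

/-- The real rank of the matrix of a Boolean function. -/
noncomputable def rk {X Y : Type} [Fintype X] [Fintype Y] (F : X → Y → Bool) : ℕ :=
  (Matrix.of (fun (x : X) (y : Y) => if F x y then (1 : ℝ) else 0)).rank

/-- For some `C` and `k`: every Boolean matrix of rank at most `r`, `r ≥ 2`, with at least
`2 ^ (C (log₂ r) ^ k + C)` rows and columns contains a monochromatic rectangle the numbers `s` of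
whose rows and of whose columns satisfy `P r s`. -/
def Ramsey (P : ℕ → ℕ → Prop) : Prop :=
  ∃ C k : ℕ, ∀ (X Y : Type) [Fintype X] [Fintype Y] (F : X → Y → Bool) (r : ℕ), 2 ≤ r →
    rk F ≤ r →
    (C : ℝ) * (Real.logb 2 r) ^ k + C ≤ Real.logb 2 (Fintype.card X) →
    (C : ℝ) * (Real.logb 2 r) ^ k + C ≤ Real.logb 2 (Fintype.card Y) →
      ∃ (A : Finset X) (B : Finset Y) (v : Bool), Mono F A B v ∧ P r A.card ∧ P r B.card

theorem one_le_logb (r : ℕ) (hr : 2 ≤ r) : (1 : ℝ) ≤ Real.logb 2 r := by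
  rw [Real.le_logb_iff_rpow_le (by norm_num) (by positivity), Real.rpow_one]
  exact_mod_cast hr

theorem logb_mono (a b : ℕ) (h : a ≤ b) : Real.logb 2 (a : ℝ) ≤ Real.logb 2 (b : ℝ) := by
  rcases Nat.eq_zero_or_pos a with h0 | h0
  · rw [h0, Nat.cast_zero, Real.logb_zero]
    exact logb_nonneg b
  · exact Real.logb_le_logb_of_le (by norm_num) (by exact_mod_cast h0) (by exact_mod_cast h)

theorem exists_retract (X : Type) [Fintype X] [Nonempty X] (n : ℕ) (h : Fintype.card X ≤ 2 ^ n) :
    ∃ (f : (Fin n → ZMod 2) → X) (e : X → (Fin n → ZMod 2)), ∀ x, f (e x) = x := by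
  classical
  have hc : Fintype.card X ≤ Fintype.card (Fin n → ZMod 2) := by
    rw [Fintype.card_fun, ZMod.card, Fintype.card_fin]
    exact h
  obtain ⟨e⟩ := Function.Embedding.nonempty_of_card_le hc
  exact ⟨Function.invFun e, e, Function.leftInverse_invFun e.injective⟩

theorem ramsey_of_logRank (h : LogRank) (K : ℕ) : Ramsey (fun r s => r ^ K ≤ s) := by
  classical
  obtain ⟨C, k, h⟩ := h
  refine ⟨C + K + 1, k + 1, ?_⟩
  intro X Y _ _ F r hr hrk hX hY
  have hL := one_le_logb r hr
  set L := Real.logb 2 (r : ℝ) with hLdef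
  have hL0 : (0 : ℝ) ≤ L := by linarith
  have hk1 : L ^ k ≤ L ^ (k + 1) := pow_le_pow_right₀ hL (by omega)
  have hk2 : L ≤ L ^ (k + 1) := by
    calc L = L ^ 1 := (pow_one L).symm
      _ ≤ _ := pow_le_pow_right₀ hL (by omega)
  -- the size
  have hsize : ∀ m : ℕ, ((C + K + 1 : ℕ) : ℝ) * L ^ (k + 1) + ((C + K + 1 : ℕ) : ℝ) ≤
      Real.logb 2 (m : ℝ) → 0 < m ∧ ∀ c : ℕ, (c : ℝ) ≤ C * L ^ k + C → r ^ K * 2 ^ c ≤ m := by
    intro m hm
    push_cast at hm
    have h1 : (K : ℝ) * L + (C * L ^ k + C) + 1 ≤ Real.logb 2 (m : ℝ) := by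
      refine le_trans ?_ hm
      have e1 : (K : ℝ) * L ≤ K * L ^ (k + 1) := mul_le_mul_of_nonneg_left hk2 (Nat.cast_nonneg _)
      have e2 : (C : ℝ) * L ^ k ≤ C * L ^ (k + 1) :=
        mul_le_mul_of_nonneg_left hk1 (Nat.cast_nonneg _)
      have e3 : (0 : ℝ) ≤ L ^ (k + 1) := by positivity
      have e4 : (0 : ℝ) ≤ K := Nat.cast_nonneg _
      nlinarith
    have hm0 : 0 < m := by
      rcases Nat.eq_zero_or_pos m with h0 | h0
      · rw [h0, Nat.cast_zero, Real.logb_zero] at h1
        have : (0 : ℝ) ≤ (K : ℝ) * L + (C * L ^ k + C) := by positivity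
        linarith
      · exact h0
    refine ⟨hm0, fun c hc => ?_⟩
    have hm' : (0 : ℝ) < m := by exact_mod_cast hm0
    have h2 : (K : ℝ) * L + c ≤ Real.logb 2 (m : ℝ) := by linarith
    rw [Real.le_logb_iff_rpow_le (by norm_num) hm', Real.rpow_add (by norm_num),
      Real.rpow_natCast] at h2
    have h3 : (2 : ℝ) ^ ((K : ℝ) * L) = (r : ℝ) ^ K := by
      rw [mul_comm, Real.rpow_mul (by norm_num), hLdef,
        Real.rpow_logb (by norm_num) (by norm_num) (by positivity), Real.rpow_natCast]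
    rw [h3] at h2
    exact_mod_cast h2
  obtain ⟨hX0, hXs⟩ := hsize _ hX
  obtain ⟨hY0, hYs⟩ := hsize _ hY
  have hXn : Nonempty X := Fintype.card_pos_iff.mp hX0
  have hYn : Nonempty Y := Fintype.card_pos_iff.mp hY0
  -- a protocol
  obtain ⟨n, hnX, hnY⟩ : ∃ n, Fintype.card X ≤ 2 ^ n ∧ Fintype.card Y ≤ 2 ^ n :=
    ⟨Fintype.card X + Fintype.card Y,
      (Nat.lt_two_pow_self).le.trans (Nat.pow_le_pow_right (by norm_num) (Nat.le_add_right _ _)),
      (Nat.lt_two_pow_self).le.trans (Nat.pow_le_pow_right (by norm_num) (Nat.le_add_left _ _))⟩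
  obtain ⟨f, e, hfe⟩ := exists_retract X n hnX
  obtain ⟨g, e', hge⟩ := exists_retract Y n hnY
  obtain ⟨c, owner, a, b, out, hout, hc⟩ := h n (fun u w => F (f u) (g w))
  have hP : Proto F c := by
    have h1 : Proto (fun u w => F (f u) (g w)) c := ⟨owner, a, b, out, hout⟩
    have h2 := Proto.comap h1 e e'
    have h3 : (fun (x : X) (y : Y) => F (f (e x)) (g (e' y))) = F := by
      funext x y
      rw [hfe, hge]
    exact h3 ▸ h2
  have hrk' : (Matrix.of (fun u w : Fin n → ZMod 2 =>
      if F (f u) (g w) then (1 : ℝ) else 0)).rank ≤ r := by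
    refine le_trans ?_ hrk
    have : Matrix.of (fun u w : Fin n → ZMod 2 => if F (f u) (g w) then (1 : ℝ) else 0) =
        (Matrix.of (fun (x : X) (y : Y) => if F x y then (1 : ℝ) else 0)).submatrix f g := rfl
    rw [this]
    exact Matrix.rank_submatrix_le _ _ _
  have hc' : (c : ℝ) ≤ C * L ^ k + C := by
    refine hc.trans ?_
    have := logb_mono _ _ hrk'
    have h0 := logb_nonneg (Matrix.of (fun u w : Fin n → ZMod 2 =>
      if F (f u) (g w) then (1 : ℝ) else 0)).rank
    exact add_le_add (mul_le_mul_of_nonneg_left (pow_le_pow_left₀ h0 this k)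
      (Nat.cast_nonneg _)) le_rfl
  obtain ⟨A, B, v, hv, hAB⟩ := rect_of_proto F c hP
  have hcA : A.card ≤ Fintype.card X := card_le_univ A
  have hcB : B.card ≤ Fintype.card Y := card_le_univ B
  refine ⟨A, B, v, hv, ?_, ?_⟩
  · have h1 : Fintype.card X * Fintype.card Y ≤ (2 ^ c * A.card) * Fintype.card Y := by
      refine hAB.trans ?_
      calc 2 ^ c * (A.card * B.card) = (2 ^ c * A.card) * B.card := by ring
        _ ≤ _ := Nat.mul_le_mul_left _ hcB
    have h2 := Nat.le_of_mul_le_mul_right h1 hY0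
    have h3 := (hXs c hc').trans h2
    have h4 : r ^ K * 2 ^ c ≤ A.card * 2 ^ c := by
      refine h3.trans (le_of_eq ?_)
      ring
    exact Nat.le_of_mul_le_mul_right h4 (by positivity)
  · have h1 : Fintype.card Y * Fintype.card X ≤ (2 ^ c * B.card) * Fintype.card X := by
      rw [mul_comm (Fintype.card Y)]
      refine hAB.trans ?_
      calc 2 ^ c * (A.card * B.card) = (2 ^ c * B.card) * A.card := by ring
        _ ≤ _ := Nat.mul_le_mul_left _ hcA
    have h2 := Nat.le_of_mul_le_mul_right h1 hX0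
    have h3 := (hYs c hc').trans h2
    have h4 : r ^ K * 2 ^ c ≤ B.card * 2 ^ c := by
      refine h3.trans (le_of_eq ?_)
      ring
    exact Nat.le_of_mul_le_mul_right h4 (by positivity)

theorem logRank_of_ramsey (t : ℕ) (ht : 1 ≤ t) (h : Ramsey (fun r s => (t + 1) * r ≤ t * s)) :
    LogRank := by
  classical
  obtain ⟨C, k, h⟩ := h
  refine ⟨(2 * ((t + 1) * (3 + 4 * C) + 4) + 2) * 2 ^ (k + 1), k + 2, ?_⟩
  intro n F
  set ρ := (comm F).rank with hρ
  have hρ' : (Matrix.of (fun x y : Fin n → ZMod 2 => if F x y then (1 : ℝ) else 0)).rank = ρ := rfl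
  rw [hρ']
  set r := max ρ 2 with hr
  have hr2 : 2 ≤ r := le_max_right _ _
  set ℓ := Real.logb 2 (ρ : ℝ) with hℓ
  have hℓ0 : 0 ≤ ℓ := logb_nonneg ρ
  set L := Real.logb 2 (r : ℝ) with hL
  have hL1 : 1 ≤ L := one_le_logb r hr2
  have hLℓ : L ≤ ℓ + 1 := by
    rcases le_total 2 ρ with h2 | h2
    · have : r = ρ := max_eq_left h2
      rw [hL, this]
      linarith
    · have : r = 2 := max_eq_right h2
      rw [hL, this]
      have : Real.logb 2 ((2 : ℕ) : ℝ) = 1 := by
        rw [Nat.cast_ofNat]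
        exact Real.logb_self_eq_one (by norm_num)
      linarith
  set E := ⌈(C : ℝ) * L ^ k + C⌉₊ with hE
  set R := 2 ^ E with hR
  have hR1 : 1 ≤ R := Nat.one_le_two_pow
  have hlogR : (C : ℝ) * L ^ k + C ≤ Real.logb 2 (R : ℝ) := by
    have e : Real.logb 2 (R : ℝ) = E := by
      rw [hR, Nat.cast_pow, Nat.cast_ofNat, Real.logb_pow, Real.logb_self_eq_one (by norm_num),
        mul_one]
    rw [e]
    exact Nat.le_ceil _
  have hP := mat_proto F r t R (by omega) ht hR1 (le_max_left _ _) (by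
    intro A B hA hB
    obtain ⟨P, Q, v, hv, hP, hQ⟩ := h A B (fun x y => F x y) r hr2 (by
      refine le_trans ?_ (le_max_left ρ 2)
      have : Matrix.of (fun (x : A) (y : B) => if F x y then (1 : ℝ) else 0) =
        (comm F).submatrix (fun x : A => (x : Fin n → ZMod 2))
          (fun y : B => (y : Fin n → ZMod 2)) := rfl
      show (Matrix.of (fun (x : A) (y : B) => if F x y then (1 : ℝ) else 0)).rank ≤ ρ
      rw [this]
      exact Matrix.rank_submatrix_le _ _ _)
      (by rw [Fintype.card_coe, hA]; exact hlogR) (by rw [Fintype.card_coe, hB]; exact hlogR)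
    refine ⟨P.map (Function.Embedding.subtype _), ?_, Q.map (Function.Embedding.subtype _), ?_,
      v, ?_, ?_, ?_⟩
    · intro x hx
      rw [mem_map] at hx
      obtain ⟨y, _, rfl⟩ := hx
      exact y.2
    · intro x hx
      rw [mem_map] at hx
      obtain ⟨y, _, rfl⟩ := hx
      exact y.2
    · intro x hx y hy
      rw [mem_map] at hx hy
      obtain ⟨x', hx', rfl⟩ := hx
      obtain ⟨y', hy', rfl⟩ := hy
      exact hv x' hx' y' hy'
    · rw [card_map]; exact hP
    · rw [card_map]; exact hQ)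
  obtain ⟨owner, a, b, out, hout⟩ := hP
  refine ⟨_, owner, a, b, out, hout, ?_⟩
  rw [← hρ]
  have hclogR : Nat.clog 2 R = E := Nat.clog_pow 2 E (by norm_num)
  rw [hclogR]
  set z := ℓ + 1 with hz
  have hz1 : 1 ≤ z := by linarith
  have hz0 : 0 ≤ z := by linarith
  have hEz : (E : ℝ) ≤ C * z ^ k + C + 1 := by
    have h1 : (E : ℝ) < (C : ℝ) * L ^ k + C + 1 := Nat.ceil_lt_add_one (by positivity)
    have h2 : L ^ k ≤ z ^ k := pow_le_pow_left₀ (by linarith) hLℓ k
    have h3 : (C : ℝ) * L ^ k ≤ C * z ^ k := mul_le_mul_of_nonneg_left h2 (Nat.cast_nonneg _)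
    linarith
  have hcl1 : (Nat.clog 2 (r + 1) : ℝ) ≤ z + 2 := by
    have h1 := clog_le (r + 1)
    have h2 : Real.logb 2 ((r + 1 : ℕ) : ℝ) ≤ L + 1 := by
      have h3 : ((r + 1 : ℕ) : ℝ) ≤ r * 2 := by
        have : r + 1 ≤ r * 2 := by omega
        exact_mod_cast this
      have hr0 : (0 : ℝ) < r := by
        have : 0 < r := by omega
        exact_mod_cast this
      calc Real.logb 2 ((r + 1 : ℕ) : ℝ) ≤ Real.logb 2 ((r : ℝ) * 2) :=
            Real.logb_le_logb_of_le (by norm_num) (by positivity) h3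
        _ = L + 1 := by
            rw [Real.logb_mul hr0.ne' (by norm_num), Real.logb_self_eq_one (by norm_num)]
    linarith
  have hcl2 : (Nat.clog 2 ρ : ℝ) ≤ z := clog_le ρ
  have hzk : z ^ k ≤ z ^ (k + 1) := pow_le_pow_right₀ hz1 (by omega)
  have hzk1 : z ≤ z ^ (k + 1) := by
    calc z = z ^ 1 := (pow_one z).symm
      _ ≤ _ := pow_le_pow_right₀ hz1 (by omega)
  have h1k : 1 ≤ z ^ (k + 1) := one_le_pow₀ hz1
  have hC0 : (0 : ℝ) ≤ C := Nat.cast_nonneg _
  have ht0 : (0 : ℝ) ≤ (t : ℝ) + 1 := by positivity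
  have hE2 : (1 + 2 * (E : ℝ)) ≤ (3 + 4 * C) * z ^ (k + 1) := by
    have h1 : (C : ℝ) * z ^ k ≤ C * z ^ (k + 1) := mul_le_mul_of_nonneg_left hzk hC0
    have h2 : (C : ℝ) ≤ C * z ^ (k + 1) := le_mul_of_one_le_right hC0 h1k
    nlinarith
  have hin : ((t : ℝ) + 1) * (1 + 2 * E) + Nat.clog 2 (r + 1) + 1 ≤
      ((t + 1) * (3 + 4 * C) + 4) * z ^ (k + 1) := by
    have h1 := mul_le_mul_of_nonneg_left hE2 ht0
    nlinarith
  have hD0 : (0 : ℝ) ≤ ((t + 1) * (3 + 4 * C) + 4) * z ^ (k + 1) := by positivity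
  have hmain : (2 * (((t : ℝ) + 1) * (1 + 2 * E) + Nat.clog 2 (r + 1) + 1) *
      Nat.clog 2 ρ + 2) ≤ (2 * ((t + 1) * (3 + 4 * C) + 4) + 2) * z ^ (k + 2) := by
    have h1 : (((t : ℝ) + 1) * (1 + 2 * E) + Nat.clog 2 (r + 1) + 1) * Nat.clog 2 ρ ≤
        (((t + 1) * (3 + 4 * C) + 4) * z ^ (k + 1)) * z :=
      mul_le_mul hin hcl2 (Nat.cast_nonneg _) hD0
    have h2 : (1 : ℝ) ≤ z ^ (k + 2) := one_le_pow₀ hz1
    have h3 : (((t + 1) * (3 + 4 * C) + 4) * z ^ (k + 1)) * z =
        (((t : ℝ) + 1) * (3 + 4 * C) + 4) * z ^ (k + 2) := by ring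
    rw [h3] at h1
    nlinarith
  have hpow : z ^ (k + 2) ≤ 2 ^ (k + 1) * (ℓ ^ (k + 2) + 1) := by
    have := add_pow_le hℓ0 (zero_le_one) (k + 2)
    simpa using this
  push_cast
  refine hmain.trans ?_
  have hD1 : (0 : ℝ) ≤ 2 * ((t + 1) * (3 + 4 * C) + 4) + 2 := by positivity
  refine (mul_le_mul_of_nonneg_left hpow hD1).trans (le_of_eq ?_)
  ring

/-- `rk F` is the real rank of the matrix of `F`; `Mono F A B v` says that `F` has the value `v` on
`A × B`; `withSquare F A B k R` is the set of the pairs `(A', B')` of `R`-element subsets of `A` and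
`B` such that `A' × B'` contains a monochromatic rectangle with `k` rows and `k` columns.
(1) Let `F` have rank at most `r`, and let all monochromatic rectangles in the rectangle `A × B` have
relative size at most `1 / q`. For `k ≥ r` the proportion of the pairs of `R`-element subsets of `A`
and `B` which contain a monochromatic square of side `k` is at most
`2 (2 R ^ 2) ^ k / ((k!) ^ 2 q ^ (k - r))`.
(2) Let `r, t, R ≥ 1` and let `F` have rank at most `r`. If for all sets `A` of `R` rows and `B` of `R`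
columns there is a monochromatic rectangle in `A × B` with at least `(1 + 1 / t) r` rows and
columns, then every rectangle contains a monochromatic rectangle of relative size at least
`(2 R ^ 2) ^ (-t - 1)`, and `F` has a protocol with at most
`2 ((t + 1) (1 + 2 ⌈log₂ R⌉) + ⌈log₂ (r + 1)⌉ + 1) ⌈log₂ (rk F)⌉ + 2` bits (protocols as in S15531).
(3) The log-rank conjecture holds if and only if for some `t ≥ 1`, and if and only if for every
`t ≥ 1`, every Boolean matrix of rank at most `r` with at least `2 ^ (C (log₂ r) ^ k + C)` rows and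
columns (`C`, `k` depending on `t`) contains a monochromatic rectangle with at least `(1 + 1 / t) r`
rows and columns.
(4) The log-rank conjecture holds if and only if for every `K` this holds with `r ^ K` instead of
`(1 + 1 / t) r` (`C`, `k` depending on `K`). -/
theorem result :
    (∀ (X Y : Type) [Fintype X] [Fintype Y] [DecidableEq X] [DecidableEq Y] (F : X → Y → Bool)
      (r : ℕ), rk F ≤ r → ∀ (A : Finset X) (B : Finset Y), A.Nonempty → B.Nonempty →
      ∀ q : ℝ, 1 ≤ q → (∀ A' ⊆ A, ∀ B' ⊆ B, ∀ v, Mono F A' B' v →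
        q * ((A'.card : ℝ) * B'.card) ≤ (A.card : ℝ) * B.card) → ∀ k R : ℕ, r ≤ k →
      (k.factorial : ℝ) ^ 2 * (withSquare F A B k R).card * q ^ (k - r) ≤
        2 * (2 * (R : ℝ) ^ 2) ^ k * (A.card.choose R * B.card.choose R)) ∧
    (∀ (X Y : Type) [Fintype X] [Fintype Y] (F : X → Y → Bool) (r t R : ℕ), 1 ≤ r → 1 ≤ t →
      1 ≤ R → rk F ≤ r →
      (∀ (A : Finset X) (B : Finset Y), A.card = R → B.card = R → ∃ P ⊆ A, ∃ Q ⊆ B, ∃ v,
        Mono F P Q v ∧ (t + 1) * r ≤ t * P.card ∧ (t + 1) * r ≤ t * Q.card) →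
      (∀ (A : Finset X) (B : Finset Y), A.Nonempty → B.Nonempty → ∃ A' ⊆ A, ∃ B' ⊆ B, ∃ v,
        Mono F A' B' v ∧ A.card * B.card ≤ (2 * R ^ 2) ^ (t + 1) * (A'.card * B'.card)) ∧
      Proto F (2 * ((t + 1) * (1 + 2 * Nat.clog 2 R) + Nat.clog 2 (r + 1) + 1) *
        Nat.clog 2 (rk F) + 2)) ∧
    ((LogRank ↔ ∃ t : ℕ, 1 ≤ t ∧ Ramsey (fun r s => (t + 1) * r ≤ t * s)) ∧
      (LogRank ↔ ∀ t : ℕ, 1 ≤ t → Ramsey (fun r s => (t + 1) * r ≤ t * s))) ∧
    (LogRank ↔ ∀ K : ℕ, Ramsey (fun r s => r ^ K ≤ s)) := by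
  classical
  have hstep : Ramsey (fun r s => r ^ 2 ≤ s) → ∀ t : ℕ, 1 ≤ t →
      Ramsey (fun r s => (t + 1) * r ≤ t * s) := by
    rintro ⟨C, k, h⟩ t ht
    refine ⟨C, k, fun X Y _ _ F r hr hrk hX hY => ?_⟩
    obtain ⟨A, B, v, hv, hA, hB⟩ := h X Y F r hr hrk hX hY
    have key : ∀ s, r ^ 2 ≤ s → (t + 1) * r ≤ t * s := by
      intro s hs
      have h1 : 2 * r ≤ s := le_trans (by nlinarith) hs
      nlinarith
    exact ⟨A, B, v, hv, key _ hA, key _ hB⟩
  have hall : LogRank → ∀ t : ℕ, 1 ≤ t → Ramsey (fun r s => (t + 1) * r ≤ t * s) :=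
    fun h t ht => hstep (ramsey_of_logRank h 2) t ht
  refine ⟨?_, ?_, ⟨⟨fun h => ⟨1, le_rfl, hall h 1 le_rfl⟩, fun ⟨t, ht, h⟩ =>
    logRank_of_ramsey t ht h⟩, ⟨hall, fun h => logRank_of_ramsey 1 le_rfl (h 1 le_rfl)⟩⟩,
    ⟨ramsey_of_logRank, fun h => logRank_of_ramsey 1 le_rfl (hstep (h 2) 1 le_rfl)⟩⟩
  · intro X Y _ _ _ _ F r hr A B hA hB q hq1 hq k R hk
    exact mat_main F r hr A B hA hB q hq1 hq k R hk
  · intro X Y _ _ F r t R hr1 ht hR hr h
    refine ⟨fun A B hA hB => ?_, mat_proto F r t R hr1 ht hR hr h⟩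
    obtain ⟨A', hA', B', hB', v, hv, hc⟩ := mat_rich F r t R hr1 ht hR hr h A B hA hB
    exact ⟨A', hA', B', hB', v, hv, hc⟩

end Pool.Agent.Results.MP_e5d384_lc.RamseyForm
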