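import Pool.Agent.R533.VC.Fin

/-!
# The log-rank conjecture for randomized protocols whose leaves have small VC dimension

Let `F` be a Boolean function on a product of two finite sets, `r` its real rank and
`L = log₂ r + 1`. Suppose that `F` is computed with error probability at most `1 / 3` by a
randomized protocol in which `c` bits are exchanged and which then, instead of a constant, outputs
the value at `(x, y)` of an arbitrary function of VC dimension at most `d` that depends on the
transcript (and on the random bits); for instance the sign of the inner product of two vectors with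
`d` real coordinates. Then the deterministic communication complexity of `F` is at most
`168 (c + 1) L ^ 2 + 5376 d L ^ 3`. So the bound of the log-rank conjecture holds whenever `c` and `d`
are at most powers of `log r`.

For `d = 0` this is the theorem of Gavinsky and Lovett. For deterministic protocols without
communication (`F` itself has VC dimension `d`) there is a simple proof with a better bound,
`d log₂ (r + 1) + 2`, by the lemma of Sauer and Shelah for `r` rows which determine all columns; it
is included in the theorem. This argument does not apply to the general case: neither the number of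
the different rows or columns nor the VC dimension of `F` is small.

Proof. Take the majority vote of `O(log r)` samples; on every rectangle some choice of the samples
has at most a fraction `ε = 1 / (64 (r + 1))` of errors. Some rectangle of transcripts is large and
has few errors. There the vote is a function with a growth exponent `O(d log r)`; columns which
differ pairwise at a fraction `1 / (16 (r + 1))` of the rows still differ on a random set of rows,
so that there are at most `r ^ O(d log r)` of them, and on some large cluster of columns and half of
the rows `F` is constant up to a fraction `1 / (4 (r + 1))` of errors. Since `r + 1` good rows span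
all good rows, `F` is constant on a quarter of this rectangle. Such rectangles in all submatrices
give a protocol (Nisan and Wigderson; the players peel off rows and columns).
-/

set_option autoImplicit false

namespace Pool.Agent.Results.MP_e5d384_lc.RandomizedVCProtocols

open Pool.Agent.R533.VC Pool.Agent.H630R2.LR

/-- `log₂` of the real rank of the communication matrix, plus one -/
noncomputable def logRank {X Y : Type} [Fintype X] [Fintype Y] (F : X → Y → Bool) : ℝ :=
  Real.logb 2 ((Matrix.of (fun (x : X) (y : Y) => if F x y then (1 : ℝ) else 0)).rank : ℝ) + 1

/-- `F` has a deterministic two-party protocol with at most `B` bits (protocols as in the frozen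
statement S15531: `t` is the transcript so far, `owner t` says who speaks, exactly `c` bits are
exchanged, and the answer is a function of the transcript). -/
def Cheap {X Y : Type} (F : X → Y → Bool) (B : ℝ) : Prop :=
  ∃ (c : ℕ) (owner : List Bool → Bool) (a : List Bool → X → Bool)
    (b : List Bool → Y → Bool) (out : List Bool → Bool),
    (∀ x y, out (Nat.iterate
      (fun t : List Bool => t ++ [if owner t then a t x else b t y]) c []) = F x y) ∧
    (c : ℝ) ≤ B

/-- The value of the leaf function `h` at the inputs `x`, `y` and at the transcript of the protocol
with `c` bits given by `owner`, `a`, `b`. -/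
def leafValue {X Y : Type} (c : ℕ) (owner : List Bool → Bool) (a : List Bool → X → Bool)
    (b : List Bool → Y → Bool) (h : List Bool → X → Y → Bool) (x : X) (y : Y) : Bool :=
  h (Nat.iterate (fun t : List Bool => t ++ [if owner t then a t x else b t y]) c []) x y

theorem cheap_of_proto {X Y : Type} (F : X → Y → Bool) (B : ℝ)
    (h : ∃ b, Proto F b ∧ (b : ℝ) ≤ B) : Cheap F B := by
  obtain ⟨c, ⟨owner, a, b, out, hout⟩, hle⟩ := h
  exact ⟨c, owner, a, b, out, hout, hle⟩

theorem randomized {X Y Ω : Type} [Fintype X] [Fintype Y] [Fintype Ω] [Nonempty Ω]
    (F : X → Y → Bool) (c d : ℕ) (owner : Ω → List Bool → Bool) (a : Ω → List Bool → X → Bool)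
    (b : Ω → List Bool → Y → Bool) (h : Ω → List Bool → X → Y → Bool)
    (hd : ∀ ω t, VCdim (h ω t) d)
    (herr : ∀ x y, 3 * (Finset.univ.filter
      (fun ω => leafValue c (owner ω) (a ω) (b ω) (h ω) x y ≠ F x y)).card ≤ Fintype.card Ω) :
    Cheap F (168 * ((c : ℝ) + 1) * logRank F ^ 2 + 5376 * d * logRank F ^ 3) := by
  refine cheap_of_proto _ _ (proto_rand F (T := List.Vector Bool c)
    (fun ω x y => ⟨tr (owner ω) (a ω) (b ω) x y c, tr_length _ _ _ _ _ _⟩)
    (fun ω t => h ω t.1) Fintype.card_pos (fun ω x x' y y' he => ?_) c d ?_
    (fun ω t => growth_of_vc _ _ (hd _ _)) herr)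
  · exact Subtype.ext (tr_rect _ _ _ x x' y y' c (congrArg Subtype.val he))
  · rw [card_vector, Fintype.card_bool]

/-- **The log-rank conjecture for randomized protocols whose leaves have small VC dimension.**
`VCdim f d` says that `k ≤ d` whenever all `2 ^ k` patterns occur among the columns of `f` at some `k`
rows.
(1) Let `F` be computed by a randomized protocol with `c` bits, given by a finite family `ω ∈ Ω` of
deterministic protocols such that for every pair `(x, y)` at most a third of them are wrong, whose
leaves are labelled by functions `h ω t` of VC dimension at most `d`. Then `F` has a deterministic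
protocol with at most `168 (c + 1) L ^ 2 + 5376 d L ^ 3` bits, `L = log₂ rank F + 1`.
(2) The same if the functions at the leaves compare two vectors with `d` real coordinates.
(3) If `F x y = g x (f_1 x y, …, f_k x y)` where `f_i` has VC dimension at most `d i`, then `F` has a
deterministic protocol with at most `(∑ d i) log₂ (rank F + 1) + 2` bits. -/
theorem result :
    (∀ (X Y Ω : Type) [Fintype X] [Fintype Y] [Fintype Ω] [Nonempty Ω] (F : X → Y → Bool)
      (c d : ℕ) (owner : Ω → List Bool → Bool) (a : Ω → List Bool → X → Bool)
      (b : Ω → List Bool → Y → Bool) (h : Ω → List Bool → X → Y → Bool),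
      (∀ ω t, VCdim (h ω t) d) →
      (∀ x y, 3 * (Finset.univ.filter
        (fun ω => leafValue c (owner ω) (a ω) (b ω) (h ω) x y ≠ F x y)).card ≤ Fintype.card Ω) →
      Cheap F (168 * ((c : ℝ) + 1) * logRank F ^ 2 + 5376 * d * logRank F ^ 3)) ∧
    (∀ (X Y Ω : Type) [Fintype X] [Fintype Y] [Fintype Ω] [Nonempty Ω] (F : X → Y → Bool)
      (c d : ℕ) (owner : Ω → List Bool → Bool) (a : Ω → List Bool → X → Bool)
      (b : Ω → List Bool → Y → Bool) (p : Ω → List Bool → X → Fin d → ℝ)
      (q : Ω → List Bool → Y → Fin d → ℝ),
      (∀ x y, 3 * (Finset.univ.filter
        (fun ω => leafValue c (owner ω) (a ω) (b ω)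
          (fun t x y => decide (0 < ∑ j, p ω t x j * q ω t y j)) x y ≠ F x y)).card ≤
        Fintype.card Ω) →
      Cheap F (168 * ((c : ℝ) + 1) * logRank F ^ 2 + 5376 * d * logRank F ^ 3)) ∧
    (∀ (X Y : Type) [Fintype X] [Fintype Y] (k : ℕ) (f : Fin k → X → Y → Bool) (d : Fin k → ℕ)
      (g : X → (Fin k → Bool) → Bool), (∀ i, VCdim (f i) (d i)) →
      Cheap (fun x y => g x (fun i => f i x y)) (((∑ i, d i : ℕ) : ℝ) *
        Real.logb 2 (((Matrix.of (fun (x : X) (y : Y) =>
          if g x (fun i => f i x y) then (1 : ℝ) else 0)).rank : ℝ) + 1) + 2)) := by
  refine ⟨?_, ?_, ?_⟩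
  · intro X Y Ω _ _ _ _ F c d owner a b h hd herr
    exact randomized F c d owner a b h hd herr
  · intro X Y Ω _ _ _ _ F c d owner a b p q herr
    exact randomized F c d owner a b _ (fun ω t => vc_sign d (p ω t) (q ω t)) herr
  · intro X Y _ _ k f d g hd
    exact cheap_of_proto _ _ (proto_vc _ _ (growth_comp k f d (fun i => growth_of_vc _ _ (hd i)) g))

end Pool.Agent.Results.MP_e5d384_lc.RandomizedVCProtocols
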